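import Pool.Agent.Helper28.NO.Goals

/-!
# Packet D3b: the density of `|Z₁ - Z₂|` is decreasing
-/

namespace Pool.Agent.Helper35.NO

open MeasureTheory Set
open Pool.Agent.Helper7.Proj (Zd)
open Pool.Agent.Helper28.NO

/-- the unnormalised density -/
noncomputable def gg (q z : ℝ) : ℝ := z ^ (q - 2) * Real.exp (-z ^ q)

/-- the product `g(m+w/2) g(m-w/2)` -/
noncomputable def GG (q m w : ℝ) : ℝ := gg q (m + w / 2) * gg q (m - w / 2)

lemma continuous_gg {q : ℝ} (hq : 2 < q) : Continuous (gg q) := by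
  unfold gg
  exact (Real.continuous_rpow_const (by linarith)).mul
    (Real.continuous_exp.comp (Real.continuous_rpow_const (by linarith)).neg)

lemma gg_nonneg {q z : ℝ} (hz : 0 ≤ z) : 0 ≤ gg q z :=
  mul_nonneg (Real.rpow_nonneg hz _) (Real.exp_pos _).le

lemma hasDerivAt_gg {q z : ℝ} (hz : 0 < z) :
    HasDerivAt (gg q) (((q - 2) * z ^ (q - 3) - q * (z ^ (q - 1) * z ^ (q - 2))) *
      Real.exp (-z ^ q)) z := by
  have h1 := Real.hasDerivAt_rpow_const (x := z) (p := q - 2) (Or.inl hz.ne')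
  have h2 : HasDerivAt (fun x : ℝ => Real.exp (-x ^ q))
      (Real.exp (-z ^ q) * -(q * z ^ (q - 1))) z :=
    (Real.hasDerivAt_rpow_const (x := z) (p := q) (Or.inl hz.ne')).neg.exp
  have h3 := h1.mul h2
  have e : q - 2 - 1 = q - 3 := by ring
  rw [e] at h3
  refine h3.congr_deriv ?_
  ring

/-- the derivative of `GG` -/
noncomputable def GG' (q m w : ℝ) : ℝ :=
  (((q - 2) * (m + w / 2) ^ (q - 3) - q * ((m + w / 2) ^ (q - 1) * (m + w / 2) ^ (q - 2))) *
      Real.exp (-(m + w / 2) ^ q)) * (1 / 2) * gg q (m - w / 2) +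
    gg q (m + w / 2) *
    ((((q - 2) * (m - w / 2) ^ (q - 3) - q * ((m - w / 2) ^ (q - 1) * (m - w / 2) ^ (q - 2))) *
      Real.exp (-(m - w / 2) ^ q)) * (-(1 / 2)))

lemma hasDerivAt_GG {q m w : ℝ} (h1 : 0 < m + w / 2) (h2 : 0 < m - w / 2) :
    HasDerivAt (GG q m) (GG' q m w) w := by
  have a1 : HasDerivAt (fun w : ℝ => m + w / 2) (1 / 2) w := by
    have := ((hasDerivAt_id w).div_const 2).const_add m
    simpa using this
  have a2 : HasDerivAt (fun w : ℝ => m - w / 2) (-(1 / 2)) w := by
    have := ((hasDerivAt_id w).div_const 2).const_sub m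
    simpa using this
  have b1 := HasDerivAt.comp w (hasDerivAt_gg (q := q) h1) a1
  have b2 := HasDerivAt.comp w (hasDerivAt_gg (q := q) h2) a2
  exact b1.mul b2

lemma GG'_nonpos {q m w : ℝ} (hq : 2 < q) (hw : 0 ≤ w) (h2 : 0 < m - w / 2) :
    GG' q m w ≤ 0 := by
  have h1 : 0 < m + w / 2 := by linarith
  unfold GG' gg
  set p := m + w / 2 with hp
  set r := m - w / 2 with hr
  have hrp : r ≤ p := by rw [hp, hr]; linarith
  have e1 : p ^ (q - 2) = p ^ (q - 3) * p := by
    rw [show q - 2 = q - 3 + 1 by ring, Real.rpow_add_one h1.ne']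
  have e2 : r ^ (q - 2) = r ^ (q - 3) * r := by
    rw [show q - 2 = q - 3 + 1 by ring, Real.rpow_add_one h2.ne']
  have m1 : r ^ (q - 1) ≤ p ^ (q - 1) := Real.rpow_le_rpow h2.le hrp (by linarith)
  have c1 : 0 < p ^ (q - 3) := Real.rpow_pos_of_pos h1 _
  have c2 : 0 < r ^ (q - 3) := Real.rpow_pos_of_pos h2 _
  have c3 : 0 < Real.exp (-p ^ q) := Real.exp_pos _
  have c4 : 0 < Real.exp (-r ^ q) := Real.exp_pos _
  rw [e1, e2]
  have key : (((q - 2) * p ^ (q - 3) - q * (p ^ (q - 1) * (p ^ (q - 3) * p))) *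
      Real.exp (-p ^ q)) * (1 / 2) * (r ^ (q - 3) * r * Real.exp (-r ^ q)) +
      p ^ (q - 3) * p * Real.exp (-p ^ q) *
      ((((q - 2) * r ^ (q - 3) - q * (r ^ (q - 1) * (r ^ (q - 3) * r))) *
        Real.exp (-r ^ q)) * (-(1 / 2))) =
      -(Real.exp (-p ^ q) * Real.exp (-r ^ q) * (p ^ (q - 3) * r ^ (q - 3)) / 2 *
        ((q - 2) * (p - r) + q * (p * r) * (p ^ (q - 1) - r ^ (q - 1)))) := by
    ring
  rw [key]
  apply neg_nonpos.2
  apply mul_nonneg (by positivity)
  apply add_nonneg
  · exact mul_nonneg (by linarith) (by linarith)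
  · exact mul_nonneg (by have := mul_pos h1 h2; nlinarith) (by linarith)

lemma inner_nonneg {q m : ℝ} (hq : 2 < q) (hm : 0 < m) {β : ℝ → ℝ} (hβ : Continuous β)
    (hB : ∀ L : ℝ, 0 ≤ L → 0 ≤ ∫ w in (0 : ℝ)..L, β w) :
    0 ≤ ∫ w in (0 : ℝ)..(2 * m), GG q m w * β w := by
  have h2m : (0 : ℝ) ≤ 2 * m := by linarith
  have cG : Continuous (GG q m) := by
    unfold GG
    exact ((continuous_gg hq).comp (by fun_prop)).mul ((continuous_gg hq).comp (by fun_prop))
  have hd : ∀ x ∈ Ioo (min 0 (2 * m)) (max 0 (2 * m)), HasDerivAt (GG q m) (GG' q m x) x := by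
    intro x hx
    rw [min_eq_left h2m, max_eq_right h2m] at hx
    exact hasDerivAt_GG (by linarith [hx.1]) (by linarith [hx.2])
  have hneg : ∀ x ∈ Ioo (0 : ℝ) (2 * m), GG' q m x ≤ 0 := fun x hx =>
    GG'_nonpos hq hx.1.le (by linarith [hx.2])
  have hi : IntervalIntegrable (GG' q m) volume 0 (2 * m) := by
    have := intervalIntegral.intervalIntegrable_deriv_of_nonneg (g := fun x => - GG q m x)
      (g' := fun x => - GG' q m x) (a := 0) (b := 2 * m) cG.neg.continuousOn
      (fun x hx => (hd x hx).neg)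
      (fun x hx => by
        rw [min_eq_left h2m, max_eq_right h2m] at hx
        exact neg_nonneg.2 (hneg x hx))
    have h3 := this.neg
    have e : (-fun x => -GG' q m x) = GG' q m := by
      ext x
      simp
    rwa [e] at h3
  have hB' : ∀ x, HasDerivAt (fun L => ∫ w in (0 : ℝ)..L, β w) (β x) x := fun x =>
    (hβ.integral_hasStrictDerivAt 0 x).hasDerivAt
  have cB : Continuous (fun L => ∫ w in (0 : ℝ)..L, β w) :=
    continuous_iff_continuousAt.2 fun x => (hB' x).continuousAt
  have ibp := intervalIntegral.integral_mul_deriv_eq_deriv_mul_of_hasDerivAt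
    (u := GG q m) (v := fun L => ∫ w in (0 : ℝ)..L, β w) (a := 0) (b := 2 * m)
    cG.continuousOn cB.continuousOn hd (fun x _ => hB' x) hi (hβ.intervalIntegrable _ _)
  rw [ibp]
  have e1 : GG q m (2 * m) = 0 := by
    unfold GG gg
    rw [show m - 2 * m / 2 = 0 by ring, Real.zero_rpow (show q - 2 ≠ 0 by linarith)]
    ring
  rw [e1, intervalIntegral.integral_same, zero_mul, mul_zero, sub_zero, zero_sub]
  apply neg_nonneg.2
  rw [intervalIntegral.integral_of_le h2m]
  rw [integral_Ioc_eq_integral_Ioo]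
  apply setIntegral_nonpos measurableSet_Ioo
  intro x hx
  exact mul_nonpos_of_nonpos_of_nonneg (hneg x hx) (hB x hx.1.le)

/-- the measure-preserving map `(w, m) ↦ (m + w/2, m - w/2)` -/
lemma mpT : MeasurePreserving (fun z : ℝ × ℝ => (z.1 + (z.2 - z.1 / 2), z.2 - z.1 / 2))
    ((volume : Measure ℝ).prod volume) ((volume : Measure ℝ).prod volume) := by
  have h1 := measurePreserving_add_prod (volume : Measure ℝ) (volume : Measure ℝ)
  have h2 : MeasurePreserving (fun z : ℝ × ℝ => (z.1, z.2 - z.1 / 2))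
      ((volume : Measure ℝ).prod volume) ((volume : Measure ℝ).prod volume) := by
    refine MeasurePreserving.skew_product (g := fun x y => y - x / 2)
      (MeasurePreserving.id (volume : Measure ℝ)) (by fun_prop)
      (Filter.Eventually.of_forall fun x => ?_)
    exact (measurePreserving_sub_right (volume : Measure ℝ) (x / 2)).map_eq
  exact h1.comp h2

theorem goalD3b : GD3b := by
  intro q hq β K hβ _ hB
  set G : ℝ → ℝ := (Ioi (0 : ℝ)).indicator (fun z => z ^ (q - 2) * Real.exp (-z ^ q) / Zd q)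
    with hG
  have hZ : 0 ≤ Zd q := setIntegral_nonneg measurableSet_Ioi fun x hx =>
    gg_nonneg (q := q) (le_of_lt hx)
  have hG0 : ∀ z, 0 ≤ G z := fun z => indicator_nonneg (fun x hx =>
    div_nonneg (gg_nonneg (q := q) (le_of_lt hx)) hZ) z
  have mG : Measurable G := Measurable.indicator (((continuous_gg hq).measurable).div_const _)
    measurableSet_Ioi
  have eμ : muZ q = (volume : Measure ℝ).withDensity (fun z => ENNReal.ofReal (G z)) := by
    unfold muZ
    rw [← withDensity_indicator measurableSet_Ioi]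
    congr 1
    ext z
    by_cases hz : z ∈ Ioi (0 : ℝ)
    · rw [indicator_of_mem hz, hG, indicator_of_mem hz]
    · rw [indicator_of_notMem hz, hG, indicator_of_notMem hz, ENNReal.ofReal_zero]
  have mE : Measurable (fun z => ENNReal.ofReal (G z)) := mG.ennreal_ofReal
  have : SFinite ((volume : Measure ℝ).withDensity (fun z => ENNReal.ofReal (G z))) := inferInstance
  have mEE : Measurable (fun z : ℝ × ℝ => ENNReal.ofReal (G z.1) * ENNReal.ofReal (G z.2)) :=
    (mE.comp measurable_fst).mul (mE.comp measurable_snd)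
  rw [eμ, prod_withDensity mE mE, integral_withDensity_eq_integral_toReal_smul mEE
    (Filter.Eventually.of_forall fun z => ENNReal.mul_lt_top ENNReal.ofReal_lt_top
      ENNReal.ofReal_lt_top)]
  have e3 : ∀ p : ℝ × ℝ, (ENNReal.ofReal (G p.1) * ENNReal.ofReal (G p.2)).toReal •
      β |p.1 - p.2| = G p.1 * G p.2 * β |p.1 - p.2| := by
    intro p
    rw [ENNReal.toReal_mul, ENNReal.toReal_ofReal (hG0 _), ENNReal.toReal_ofReal (hG0 _),
      smul_eq_mul]
  simp_rw [e3]
  have mF : Measurable (fun p : ℝ × ℝ => G p.1 * G p.2 * β |p.1 - p.2|) :=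
    ((mG.comp measurable_fst).mul (mG.comp measurable_snd)).mul
      (hβ.measurable.comp (by fun_prop))
  rw [← mpT.map_eq, integral_map mpT.measurable.aemeasurable mF.aestronglyMeasurable]
  by_cases hint : Integrable (fun z : ℝ × ℝ => G (z.1 + (z.2 - z.1 / 2)) * G (z.2 - z.1 / 2) *
      β |z.1 + (z.2 - z.1 / 2) - (z.2 - z.1 / 2)|) ((volume : Measure ℝ).prod volume)
  swap
  · rw [integral_undef hint]
  rw [integral_prod_symm _ hint]
  apply integral_nonneg
  intro m
  simp only [Pi.zero_apply]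
  have e4 : ∀ w : ℝ, G (w + (m - w / 2)) * G (m - w / 2) *
      β |w + (m - w / 2) - (m - w / 2)| =
      (fun x => G (m + x / 2) * G (m - x / 2) * β x) |w| := by
    intro w
    simp only
    rw [show w + (m - w / 2) - (m - w / 2) = w by ring, show w + (m - w / 2) = m + w / 2 by ring]
    rcases abs_cases w with h | h
    · rw [h.1]
    · rw [h.1, show m + -w / 2 = m - w / 2 by ring, show m - -w / 2 = m + w / 2 by ring,
        mul_comm (G _)]
  rw [integral_congr_ae (Filter.Eventually.of_forall e4),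
    integral_comp_abs (f := fun x => G (m + x / 2) * G (m - x / 2) * β x)]
  apply mul_nonneg (by norm_num)
  rcases le_or_gt m 0 with hm | hm
  · apply le_of_eq
    symm
    apply setIntegral_eq_zero_of_forall_eq_zero
    intro w hw
    have : G (m - w / 2) = 0 := by
      rw [hG, indicator_of_notMem]
      simp only [mem_Ioi, not_lt]
      linarith [mem_Ioi.1 hw]
    rw [this]
    ring
  · have e5 : ∫ x in Ioi (0 : ℝ), G (m + x / 2) * G (m - x / 2) * β x =
        ∫ x in Ioc (0 : ℝ) (2 * m), G (m + x / 2) * G (m - x / 2) * β x := by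
      rw [← Ioc_union_Ioi_eq_Ioi (show (0 : ℝ) ≤ 2 * m by linarith)]
      apply MeasureTheory.integral_union_eq_left_of_forall measurableSet_Ioi
      intro w hw
      have : G (m - w / 2) = 0 := by
        rw [hG, indicator_of_notMem]
        simp only [mem_Ioi, not_lt]
        linarith [mem_Ioi.1 hw]
      rw [this]
      ring
    rw [e5, integral_Ioc_eq_integral_Ioo]
    have e6 : ∫ x in Ioo (0 : ℝ) (2 * m), G (m + x / 2) * G (m - x / 2) * β x =
        ∫ x in Ioo (0 : ℝ) (2 * m), (1 / Zd q ^ 2) * (GG q m x * β x) := by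
      apply setIntegral_congr_fun measurableSet_Ioo
      intro w hw
      simp only
      rw [hG, indicator_of_mem (show m + w / 2 ∈ Ioi (0 : ℝ) by
          simp only [mem_Ioi]; linarith [hw.1]),
        indicator_of_mem (show m - w / 2 ∈ Ioi (0 : ℝ) by
          simp only [mem_Ioi]; linarith [hw.2])]
      unfold GG gg
      ring
    rw [e6, integral_const_mul]
    apply mul_nonneg (by positivity)
    rw [← integral_Ioc_eq_integral_Ioo, ← intervalIntegral.integral_of_le (by linarith)]
    exact inner_nonneg hq hm hβ hB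

end Pool.Agent.Helper35.NO
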